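import Pool.Agent.H20.T4.Stm
import Pool.Agent.H9.TC.Fin

/-!
Project TM4 (MP_b6022c_nt), row Fin4: normality of the Thue-Morse sequence along quartic
polynomials, from Theorem A4. Degree 4 version of `Pool/Agent/H9/TC/Fin.lean`, with the same
definitions `NaturalValued`, `val`, `thueMorse`.
-/

namespace Pool.Agent.H43.T4

open Finset Filter Topology
open Pool.Agent.H9.TC (sgz NaturalValued val thueMorse val_cast sg sg_eq abs_sgz_fin
  tendsto_classes ind_eq)
open Pool.Agent.H20.T4 (qua ThmAStmt)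

theorem lead_pos4 {P : Polynomial ℚ} (hd : P.natDegree = 4) (hP : NaturalValued P) :
    0 < P.coeff 4 := by
  have hlc : P.leadingCoeff = P.coeff 4 := by rw [Polynomial.leadingCoeff, hd]
  rw [← hlc]
  by_contra hc
  push Not at hc
  have hdeg : 0 < P.degree := by
    rw [← Polynomial.natDegree_pos_iff_degree_pos, hd]
    norm_num
  have h1 := P.tendsto_atBot_of_leadingCoeff_nonpos hdeg hc
  have h2 := h1.comp (tendsto_natCast_atTop_atTop (R := ℚ))
  obtain ⟨n, hn⟩ := (h2.eventually (eventually_lt_atBot 0)).exists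
  obtain ⟨m, hm⟩ := hP n
  rw [Function.comp_apply, hm] at hn
  exact absurd hn (not_lt.2 (by positivity))

theorem eval_five {P : Polynomial ℚ} (hd : P.natDegree = 4) (x : ℚ) :
    P.eval x = P.coeff 0 + P.coeff 1 * x + P.coeff 2 * x ^ 2 + P.coeff 3 * x ^ 3 +
      P.coeff 4 * x ^ 4 := by
  rw [Polynomial.eval_eq_sum_range, hd]
  simp only [sum_range_succ, sum_range_zero]
  ring

theorem exists_denom4 (P : Polynomial ℚ) : ∃ D : ℕ, 1 ≤ D ∧ ∃ a1 a2 a3 a4 : ℤ,
    (D : ℚ) * P.coeff 1 = a1 ∧ (D : ℚ) * P.coeff 2 = a2 ∧ (D : ℚ) * P.coeff 3 = a3 ∧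
      (D : ℚ) * P.coeff 4 = a4 := by
  refine ⟨(P.coeff 1).den * (P.coeff 2).den * (P.coeff 3).den * (P.coeff 4).den, ?_,
    (P.coeff 1).num * (P.coeff 2).den * (P.coeff 3).den * (P.coeff 4).den,
    (P.coeff 2).num * (P.coeff 1).den * (P.coeff 3).den * (P.coeff 4).den,
    (P.coeff 3).num * (P.coeff 1).den * (P.coeff 2).den * (P.coeff 4).den,
    (P.coeff 4).num * (P.coeff 1).den * (P.coeff 2).den * (P.coeff 3).den, ?_, ?_, ?_, ?_⟩
  · exact Nat.mul_pos (Nat.mul_pos (Nat.mul_pos (P.coeff 1).pos (P.coeff 2).pos)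
      (P.coeff 3).pos) (P.coeff 4).pos
  · push_cast
    linear_combination ((P.coeff 2).den : ℚ) * (P.coeff 3).den * (P.coeff 4).den *
      (Rat.mul_den_eq_num (P.coeff 1))
  · push_cast
    linear_combination ((P.coeff 1).den : ℚ) * (P.coeff 3).den * (P.coeff 4).den *
      (Rat.mul_den_eq_num (P.coeff 2))
  · push_cast
    linear_combination ((P.coeff 1).den : ℚ) * (P.coeff 2).den * (P.coeff 4).den *
      (Rat.mul_den_eq_num (P.coeff 3))
  · push_cast
    linear_combination ((P.coeff 1).den : ℚ) * (P.coeff 2).den * (P.coeff 3).den *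
      (Rat.mul_den_eq_num (P.coeff 4))

theorem mean_zero4 (h : ThmAStmt) {P : Polynomial ℚ} (hd : P.natDegree = 4)
    (hP : NaturalValued P) {k : ℕ} (S : Finset (Fin k)) (hS : S.Nonempty) :
    Tendsto (fun N : ℕ => (∑ n ∈ range N, ∏ i ∈ S, sg P (n + i)) / (N : ℝ)) atTop (𝓝 0) := by
  obtain ⟨D, hD, a1, a2, a3, a4, h1, h2, h3, h4⟩ := exists_denom4 P
  have hD0 : (0 : ℚ) < D := by exact_mod_cast hD
  have ha4 : 0 < a4 := by
    have : (0 : ℚ) < a4 := by
      rw [← h4]
      exact mul_pos hD0 (lead_pos4 hd hP)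
    exact_mod_cast this
  refine tendsto_classes _ ?_ D hD ?_
  · intro n
    rw [abs_prod]
    refine le_of_eq (prod_eq_one fun i _ => ?_)
    exact abs_sgz_fin _
  · intro ρ _
    set q0 := S.card with hq0
    let σ : Fin q0 → Fin k := S.orderEmbOfFin rfl
    have hσ : Function.Injective σ := (S.orderEmbOfFin rfl).injective
    set c : ℕ := (a4 * D ^ 3).toNat with hc
    have hcz : (c : ℤ) = a4 * D ^ 3 := by
      rw [hc]
      exact Int.toNat_of_nonneg (by positivity)
    let dd : Fin q0 → ℤ := fun j => D ^ 2 * (4 * a4 * (ρ + (σ j : ℕ)) + a3)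
    let ee' : Fin q0 → ℤ := fun j => D * (6 * a4 * (ρ + (σ j : ℕ)) ^ 2 +
      3 * a3 * (ρ + (σ j : ℕ)) + a2)
    let ff : Fin q0 → ℤ := fun j => 4 * a4 * (ρ + (σ j : ℕ)) ^ 3 +
      3 * a3 * (ρ + (σ j : ℕ)) ^ 2 + 2 * a2 * (ρ + (σ j : ℕ)) + a1
    let gg : Fin q0 → ℤ := fun j => val P (ρ + (σ j : ℕ))
    have hval : ∀ (j : Fin q0) (x : ℕ), qua c (dd j) (ee' j) (ff j) (gg j) x =
        (val P (D * x + ρ + (σ j : ℕ)) : ℤ) := by
      intro j x
      have hinj : Function.Injective (fun z : ℤ => (z : ℚ)) := Int.cast_injective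
      apply hinj
      have hv := val_cast hP (ρ + (σ j : ℕ))
      have hv2 := val_cast hP (D * x + ρ + (σ j : ℕ))
      rw [eval_five hd] at hv hv2
      simp only [qua, dd, ee', ff, gg, hcz]
      push_cast at hv hv2 ⊢
      rw [hv, hv2, ← h1, ← h2, ← h3, ← h4]
      ring
    have hinj : Function.Injective dd := by
      intro i j hij
      apply hσ
      have hDz : (D : ℤ) ^ 2 ≠ 0 := by
        have : (0 : ℤ) < D := by exact_mod_cast hD
        positivity
      have e1 : 4 * a4 * ((ρ : ℤ) + (σ i : ℕ)) + a3 = 4 * a4 * ((ρ : ℤ) + (σ j : ℕ)) + a3 :=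
        mul_left_cancel₀ hDz hij
      have e2 : 4 * a4 * (((σ i : ℕ) : ℤ) - (σ j : ℕ)) = 0 := by linarith
      have e3 : ((σ i : ℕ) : ℤ) - (σ j : ℕ) = 0 :=
        (mul_eq_zero.1 e2).resolve_left (by positivity)
      apply Fin.ext
      omega
    have hc1 : 1 ≤ c := by
      have : (0 : ℤ) < c := by
        rw [hcz]
        have : (0 : ℤ) < D := by exact_mod_cast hD
        positivity
      exact_mod_cast this
    have hA := h q0 c dd ee' ff gg (Finset.card_pos.2 hS) hc1 hinj
    refine hA.congr fun M => ?_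
    congr 1
    refine sum_congr rfl fun x _ => ?_
    have e1 : ∏ i ∈ S, sg P (D * x + ρ + i) = ∏ j : Fin q0, sg P (D * x + ρ + (σ j : ℕ)) := by
      have himg : S = Finset.univ.image σ := by
        have := Finset.image_orderEmbOfFin_univ S (k := q0) rfl
        exact this.symm
      conv_lhs => rw [himg]
      rw [prod_image fun i _ j _ hij => hσ hij]
    rw [e1]
    refine prod_congr rfl fun j _ => ?_
    rw [hval, sg]

/-- Every word has frequency `2^(-k)` as soon as all correlations have mean zero. -/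
theorem words_of_mean (P : Polynomial ℚ)
    (hmean : ∀ (k : ℕ) (S : Finset (Fin k)), S.Nonempty →
      Tendsto (fun N : ℕ => (∑ n ∈ range N, ∏ i ∈ S, sg P (n + i)) / (N : ℝ)) atTop (𝓝 0))
    (k : ℕ) (w : Fin k → Fin 2) :
    Tendsto (fun N : ℕ => (((range N).filter
      (fun n => ∀ i : Fin k, thueMorse (val P (n + i)) = (w i : ℕ))).card : ℝ) / N)
      atTop (𝓝 ((1 / 2) ^ k)) := by
  have e1 : ∀ N : ℕ, (((range N).filter
      (fun n => ∀ i : Fin k, thueMorse (val P (n + i)) = (w i : ℕ))).card : ℝ) / N =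
      ∑ S : Finset (Fin k), (1 / 2) ^ k * (∏ i ∈ S, (-1 : ℝ) ^ (w i : ℕ)) *
        ((∑ n ∈ range N, ∏ i ∈ S, sg P (n + i)) / N) := by
    intro N
    have e2 : ∀ n : ℕ, (if ∀ i : Fin k, thueMorse (val P (n + i)) = (w i : ℕ) then (1 : ℝ) else 0)
        = ∑ S : Finset (Fin k), (1 / 2) ^ k * (∏ i ∈ S, (-1 : ℝ) ^ (w i : ℕ)) *
          ∏ i ∈ S, sg P (n + i) := by
      intro n
      have e3 : (if ∀ i : Fin k, thueMorse (val P (n + i)) = (w i : ℕ) then (1 : ℝ) else 0) =
          ∏ i : Fin k, (if thueMorse (val P (n + i)) = (w i : ℕ) then (1 : ℝ) else 0) := by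
        by_cases hall : ∀ i : Fin k, thueMorse (val P (n + i)) = (w i : ℕ)
        · rw [if_pos hall]
          exact (prod_eq_one fun i _ => if_pos (hall i)).symm
        · rw [if_neg hall]
          push Not at hall
          obtain ⟨i, hi⟩ := hall
          exact (prod_eq_zero (mem_univ i) (if_neg hi)).symm
      rw [e3]
      have e4 : ∀ i : Fin k, (if thueMorse (val P (n + i)) = (w i : ℕ) then (1 : ℝ) else 0) =
          1 / 2 * (1 + (-1) ^ (w i : ℕ) * sg P (n + i)) := by
        intro i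
        rw [sg_eq]
        exact ind_eq _ _ (Nat.mod_lt _ (by norm_num)) (w i).2
      rw [prod_congr rfl fun i _ => e4 i, prod_mul_distrib, prod_const, card_univ,
        Fintype.card_fin, prod_one_add, powerset_univ, mul_sum]
      refine sum_congr rfl fun S _ => ?_
      rw [prod_mul_distrib, mul_assoc]
    rw [card_filter]
    push_cast
    rw [sum_congr rfl fun n _ => e2 n, sum_comm, sum_div]
    refine sum_congr rfl fun S _ => ?_
    rw [← mul_sum, mul_div_assoc]
  have e5 : ((1 : ℝ) / 2) ^ k = ∑ S : Finset (Fin k), (if S = ∅ then ((1 : ℝ) / 2) ^ k else 0) := by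
    rw [sum_ite_eq' univ ∅]
    simp
  rw [e5]
  have e6 : (fun N : ℕ => (((range N).filter
      (fun n => ∀ i : Fin k, thueMorse (val P (n + i)) = (w i : ℕ))).card : ℝ) / N) =
      fun N : ℕ => ∑ S : Finset (Fin k), (1 / 2) ^ k * (∏ i ∈ S, (-1 : ℝ) ^ (w i : ℕ)) *
        ((∑ n ∈ range N, ∏ i ∈ S, sg P (n + i)) / N) := funext e1
  rw [e6]
  refine tendsto_finsetSum _ fun S _ => ?_
  rcases S.eq_empty_or_nonempty with hS | hS
  · subst hS
    simp only [prod_empty, if_pos, mul_one, sum_const, card_range, nsmul_eq_mul]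
    have : Tendsto (fun _ : ℕ => ((1 : ℝ) / 2) ^ k) atTop (𝓝 (((1 : ℝ) / 2) ^ k)) :=
      tendsto_const_nhds
    refine this.congr' ?_
    filter_upwards [eventually_ge_atTop 1] with N hN
    have hN0 : (N : ℝ) ≠ 0 := by
      have : N ≠ 0 := by omega
      exact_mod_cast this
    rw [div_self hN0, mul_one]
  · rw [if_neg hS.ne_empty]
    have := (hmean k S hS).const_mul ((1 / 2) ^ k * (∏ i ∈ S, (-1 : ℝ) ^ (w i : ℕ)))
    rwa [mul_zero] at this

/-- Theorem B for quartic polynomials. -/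
theorem thmB4 (h : ThmAStmt) (P : Polynomial ℚ) (hd : P.natDegree = 4) (hP : NaturalValued P)
    (k : ℕ) (w : Fin k → Fin 2) :
    Tendsto (fun N : ℕ => (((range N).filter
      (fun n => ∀ i : Fin k, thueMorse (val P (n + i)) = (w i : ℕ))).card : ℝ) / N)
      atTop (𝓝 ((1 / 2) ^ k)) :=
  words_of_mean P (fun _ S hS => mean_zero4 h hd hP S hS) k w

end Pool.Agent.H43.T4
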