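import Pool.Agent.H20.T4.Stm
import Pool.Agent.H9.TC.Basic
import Pool.Agent.H9.TC.ThmA

/-!
Project TM4 (MP_b6022c_nt), row ThmA: Theorem A4 from the truncated theorem (`P5Stmt`), the van der
Corput inequality (`V0Stmt`) and the cut of the high digits (`CutStmt`). Degree 4 version of
`Pool/Agent/H9/TC/ThmA.lean`.
-/

namespace Pool.Agent.H43.T4

open Finset
open Pool.Agent.H9.TC (cnt TW sgz V0Stmt abs_sgz abs_TW cnt_exists_fin abs_sum_sub_le)
open Pool.Agent.H9.TC.ThmA (sgz_mul_eq cnt_range_mono abs_prod_one)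
open Pool.Agent.H20.T4 (qua P5Stmt CutStmt ThmAStmt)

namespace ThmA

theorem qua_shift (c d e f g x j : ℤ) :
    qua c d e f g (x + j) = qua c (d + 4 * c * j) (e + 3 * d * j + 6 * c * j ^ 2)
      (f + 2 * e * j + 3 * d * j ^ 2 + 4 * c * j ^ 3)
      (g + f * j + e * j ^ 2 + d * j ^ 3 + c * j ^ 4) x := by
  unfold qua; ring

/-- The estimate for one pair of shifts. -/
theorem pair_bound (h5 : P5Stmt) (hcut : CutStmt) (q0 c : ℕ) (d e f g : Fin q0 → ℤ) (hq : 1 ≤ q0)
    (hc1 : 1 ≤ c) (hd : Function.Injective d) (j j' : ℕ)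
    (hj : ∀ i i', d i + 4 * (c : ℤ) * j ≠ d i' + 4 * (c : ℤ) * j') (ε : ℝ) (hε : 0 < ε) :
    ∃ N1 : ℕ, ∀ N ≥ N1,
      |∑ n ∈ range N, (∏ i, sgz (qua c (d i) (e i) (f i) (g i) ((n : ℤ) + j))) *
        (∏ i, sgz (qua c (d i) (e i) (f i) (g i) ((n : ℤ) + j')))| ≤ ε * N := by
  have hq' : (0 : ℝ) < q0 := by exact_mod_cast hq
  have hε2 : 0 < ε / (8 * q0) := by positivity
  choose C0 hC0 using fun i => hcut c (d i) (e i) (f i) (g i) j j' (ε / (8 * q0)) hc1 hε2
  set C' : ℕ := univ.sup C0 with hC'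
  have hCle : ∀ i, C0 i ≤ C' := fun i => Finset.le_sup (f := C0) (mem_univ i)
  choose v0 hv0 using fun i => hC0 i C' (hCle i)
  -- the doubled family
  set D : Fin (q0 + q0) → ℤ := Fin.append (fun i => d i + 4 * (c : ℤ) * j)
    (fun i => d i + 4 * (c : ℤ) * j') with hD
  set E : Fin (q0 + q0) → ℤ := Fin.append (fun i => e i + 3 * d i * j + 6 * (c : ℤ) * j ^ 2)
    (fun i => e i + 3 * d i * j' + 6 * (c : ℤ) * j' ^ 2) with hE
  set F : Fin (q0 + q0) → ℤ := Fin.append
    (fun i => f i + 2 * e i * j + 3 * d i * j ^ 2 + 4 * (c : ℤ) * j ^ 3)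
    (fun i => f i + 2 * e i * j' + 3 * d i * j' ^ 2 + 4 * (c : ℤ) * j' ^ 3) with hF
  set G : Fin (q0 + q0) → ℤ := Fin.append
    (fun i => g i + f i * j + e i * j ^ 2 + d i * j ^ 3 + (c : ℤ) * j ^ 4)
    (fun i => g i + f i * j' + e i * j' ^ 2 + d i * j' ^ 3 + (c : ℤ) * j' ^ 4) with hG
  have hDinj : Function.Injective D := by
    intro a b hab
    induction a using Fin.addCases with
    | left a =>
      induction b using Fin.addCases with
      | left b =>
        simp only [hD, Fin.append_left] at hab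
        have : d a = d b := by linarith
        rw [hd this]
      | right b =>
        simp only [hD, Fin.append_left, Fin.append_right] at hab
        exact absurd hab (hj a b)
    | right a =>
      induction b using Fin.addCases with
      | left b =>
        simp only [hD, Fin.append_left, Fin.append_right] at hab
        exact absurd hab.symm (hj b a)
      | right b =>
        simp only [hD, Fin.append_right] at hab
        have : d a = d b := by linarith
        rw [hd this]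
  obtain ⟨v1, hv1⟩ := h5 (q0 + q0) c D E F G C' (ε / 2) (by omega) hc1 hDinj (by positivity)
  set vv : ℕ := max v1 (univ.sup v0) with hvv
  have hvle : ∀ i, v0 i ≤ vv := fun i =>
    (Finset.le_sup (f := v0) (mem_univ i)).trans (le_max_right _ _)
  refine ⟨2 ^ vv, fun N hN => ?_⟩
  have hNpos : 0 < N := lt_of_lt_of_le (by positivity) hN
  set ν : ℕ := Nat.log 2 N + 1 with hν
  have hlog : vv ≤ Nat.log 2 N := Nat.le_log_of_pow_le (by norm_num) hN
  have hN1 : 2 ^ (ν - 1) ≤ N := by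
    rw [hν, Nat.add_sub_cancel]
    exact Nat.pow_log_le_self 2 hNpos.ne'
  have hN2 : N ≤ 2 ^ ν := (Nat.lt_pow_succ_log_self (by norm_num) N).le
  have hmain := hv1 ν ((le_max_left _ _).trans (hlog.trans (Nat.le_succ _))) N hN1 hN2
  set P : Fin q0 → ℕ → Prop := fun i n => ¬ (0 ≤ qua c (d i) (e i) (f i) (g i) (n + j) ∧
      0 ≤ qua c (d i) (e i) (f i) (g i) (n + j') ∧
      qua c (d i) (e i) (f i) (g i) (n + j) / 2 ^ (3 * ν + C') =
        qua c (d i) (e i) (f i) (g i) (n + j') / 2 ^ (3 * ν + C')) with hP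
  have hcnt : ∀ i, (cnt (2 ^ ν) (P i) : ℝ) ≤ ε / (8 * q0) * 2 ^ ν := fun i =>
    hv0 i ν ((hvle i).trans (hlog.trans (Nat.le_succ _)))
  have hcntN : (cnt N (fun n => ∃ i, P i n) : ℝ) ≤ ε / 4 * N := by
    have h1 : cnt N (fun n => ∃ i, P i n) ≤ ∑ i, cnt (2 ^ ν) (P i) :=
      (cnt_exists_fin N P).trans (sum_le_sum fun i _ => cnt_range_mono hN2 (P i))
    have h2 : ((∑ i, cnt (2 ^ ν) (P i) : ℕ) : ℝ) ≤ ∑ _i : Fin q0, ε / (8 * q0) * 2 ^ ν := by
      push_cast
      exact sum_le_sum fun i _ => hcnt i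
    have h3 : (cnt N (fun n => ∃ i, P i n) : ℝ) ≤ ((∑ i, cnt (2 ^ ν) (P i) : ℕ) : ℝ) := by
      exact_mod_cast h1
    have h4 : (2 : ℝ) ^ ν ≤ 2 * N := by
      have : 2 ^ ν ≤ 2 * N := by
        rw [hν, pow_succ, mul_comm]
        exact Nat.mul_le_mul_left 2 (Nat.pow_log_le_self 2 hNpos.ne')
      exact_mod_cast this
    have h5 : (∑ _i : Fin q0, ε / (8 * q0) * 2 ^ ν : ℝ) = ε / 8 * 2 ^ ν := by
      rw [sum_const, card_univ, Fintype.card_fin, nsmul_eq_mul]
      field_simp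
    calc (cnt N (fun n => ∃ i, P i n) : ℝ) ≤ ε / 8 * 2 ^ ν := by
          rw [← h5]; exact h3.trans h2
      _ ≤ ε / 8 * (2 * N) := by
          apply mul_le_mul_of_nonneg_left h4; positivity
      _ = ε / 4 * N := by ring
  have hdiff := abs_sum_sub_le (M := N) (P := fun n => ∃ i, P i n)
    (f := fun n => (∏ i, sgz (qua c (d i) (e i) (f i) (g i) ((n : ℤ) + j))) *
        (∏ i, sgz (qua c (d i) (e i) (f i) (g i) ((n : ℤ) + j'))))
    (g := fun n => ∏ i, TW 0 (3 * ν + C') (qua c (D i) (E i) (F i) (G i) n))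
    (fun m _ => by
      rw [abs_mul, abs_prod_one _ _ (fun i _ => abs_sgz _), abs_prod_one _ _ (fun i _ => abs_sgz _),
        mul_one])
    (fun m _ => by
      rw [abs_prod_one _ _ (fun i _ => abs_TW _ _ _)])
    (fun m _ hm => by
      rw [Fin.prod_univ_add, ← prod_mul_distrib, ← prod_mul_distrib]
      refine prod_congr rfl fun i _ => ?_
      have hmi : ¬ P i m := fun h => hm ⟨i, h⟩
      simp only [hP, not_not] at hmi
      rw [sgz_mul_eq hmi.1 hmi.2.1 hmi.2.2]
      simp only [hD, hE, hF, hG, Fin.append_left, Fin.append_right]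
      rw [qua_shift, qua_shift])
  have hfin := abs_sub_abs_le_abs_sub
    (∑ n ∈ range N, (∏ i, sgz (qua c (d i) (e i) (f i) (g i) ((n : ℤ) + j))) *
        (∏ i, sgz (qua c (d i) (e i) (f i) (g i) ((n : ℤ) + j'))))
    (∑ n ∈ range N, ∏ i, TW 0 (3 * ν + C') (qua c (D i) (E i) (F i) (G i) n))
  linarith

/-- The bad pairs are few. -/
theorem bad_card (q0 c : ℕ) (d : Fin q0 → ℤ) (hc1 : 1 ≤ c) (J : ℕ) (j : ℕ) :
    ((range J).filter (fun j' : ℕ => ∃ i i', d i + 4 * (c : ℤ) * j = d i' + 4 * (c : ℤ) * j')).card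
      ≤ q0 ^ 2 := by
  classical
  have h1 : (range J).filter (fun j' : ℕ => ∃ i i', d i + 4 * (c : ℤ) * j =
      d i' + 4 * (c : ℤ) * j') ⊆
      (univ : Finset (Fin q0 × Fin q0)).image
        (fun p => ((d p.1 + 4 * (c : ℤ) * j - d p.2) / (4 * (c : ℤ))).toNat) := by
    intro j' hj'
    simp only [mem_filter, mem_range] at hj'
    obtain ⟨-, i, i', h⟩ := hj'
    refine mem_image.2 ⟨(i, i'), mem_univ _, ?_⟩
    have h3 : d i + 4 * (c : ℤ) * j - d i' = 4 * (c : ℤ) * j' := by linarith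
    have hc0 : (4 * (c : ℤ)) ≠ 0 := by
      have : (1 : ℤ) ≤ c := by exact_mod_cast hc1
      omega
    simp only [h3]
    rw [Int.mul_ediv_cancel_left _ hc0, Int.toNat_natCast]
  refine (card_le_card h1).trans (card_image_le.trans ?_)
  rw [card_univ, Fintype.card_prod, Fintype.card_fin, sq]

end ThmA

open ThmA in
/-- Theorem A. -/
theorem thmA (h0 : V0Stmt) (h5 : P5Stmt) (hc : CutStmt) : ThmAStmt := by
  classical
  intro q0 c d e f g hq hc1 hd
  set G : ℤ → ℝ := fun x => ∏ i, sgz (qua c (d i) (e i) (f i) (g i) x) with hG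
  have hG1 : ∀ x, |G x| = 1 := fun x => abs_prod_one _ _ fun i _ => abs_sgz _
  have hgoal : ∀ ε : ℝ, 0 < ε → ∃ N0 : ℕ, ∀ N ≥ N0, |∑ n ∈ range N, G n| ≤ ε * N := by
    intro ε hε
    -- choice of J
    obtain ⟨J, hJ⟩ := exists_nat_gt ((4 * (q0 : ℝ) ^ 2) / ε ^ 2)
    have hq' : (0 : ℝ) < q0 := by exact_mod_cast hq
    have hJpos : (0 : ℝ) < J := lt_of_le_of_lt (by positivity) hJ
    have hJ1 : 1 ≤ J := by exact_mod_cast hJpos
    have hJ2 : (q0 : ℝ) ^ 2 * 4 ≤ ε ^ 2 * J := by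
      rw [div_lt_iff₀ (by positivity)] at hJ
      linarith
    -- the pairs
    have hpair : ∀ j j' : ℕ, ∃ N1 : ℕ, ∀ N ≥ N1,
        (∑ b ∈ range N, G ((b : ℤ) + j) * G ((b : ℤ) + j')) ≤
          (if ∃ i i', d i + 4 * (c : ℤ) * j = d i' + 4 * (c : ℤ) * j' then (N : ℝ) else 0) +
            ε ^ 2 / 4 * N := by
      intro j j'
      by_cases hb : ∃ i i', d i + 4 * (c : ℤ) * j = d i' + 4 * (c : ℤ) * j'
      · refine ⟨0, fun N _ => ?_⟩
        rw [if_pos hb]
        have h1 : ∑ b ∈ range N, G ((b : ℤ) + j) * G ((b : ℤ) + j') ≤ ∑ _b ∈ range N, (1 : ℝ) := by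
          refine sum_le_sum fun b _ => ?_
          refine (le_abs_self _).trans ?_
          rw [abs_mul, hG1, hG1, mul_one]
        rw [sum_const, card_range, nsmul_eq_mul, mul_one] at h1
        have : 0 ≤ ε ^ 2 / 4 * N := by positivity
        linarith
      · push Not at hb
        obtain ⟨N1, hN1⟩ := pair_bound h5 hc q0 c d e f g hq hc1 hd j j' hb (ε ^ 2 / 4)
          (by positivity)
        refine ⟨N1, fun N hN => ?_⟩
        have h1 := (le_abs_self _).trans (hN1 N hN)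
        split_ifs
        · have : (0 : ℝ) ≤ N := Nat.cast_nonneg N
          linarith
        · linarith
    choose N1 hN1 using hpair
    set NN : ℕ := (range J).sup (fun j => (range J).sup (fun j' => N1 j j')) with hNN
    have hNNle : ∀ j ∈ range J, ∀ j' ∈ range J, N1 j j' ≤ NN := by
      intro j hj j' hj'
      exact (Finset.le_sup (f := fun j' => N1 j j') hj').trans
        (Finset.le_sup (f := fun j => (range J).sup (fun j' => N1 j j')) hj)
    obtain ⟨N2, hN2⟩ := exists_nat_gt (4 * (J : ℝ) / ε ^ 2)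
    refine ⟨max NN (max N2 1), fun N hN => ?_⟩
    have hNa : NN ≤ N := (le_max_left _ _).trans hN
    have hNb : N2 ≤ N := (le_max_left _ _).trans ((le_max_right _ _).trans hN)
    have hNc : 1 ≤ N := (le_max_right _ _).trans ((le_max_right _ _).trans hN)
    have hNpos : (0 : ℝ) < N := by exact_mod_cast hNc
    have hV := h0 G (fun x => (hG1 x).le) J N 1 hJ1
    simp only [Nat.cast_one, mul_one] at hV
    have hsum : (∑ j ∈ range J, ∑ j' ∈ range J, ∑ b ∈ range N,
        G ((b : ℤ) + j) * G ((b : ℤ) + j')) ≤ J * ((q0 : ℝ) ^ 2 * N) + J * (J * (ε ^ 2 / 4 * N)) := by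
      have h1 : ∀ j ∈ range J, (∑ j' ∈ range J, ∑ b ∈ range N,
          G ((b : ℤ) + j) * G ((b : ℤ) + j')) ≤ (q0 : ℝ) ^ 2 * N + J * (ε ^ 2 / 4 * N) := by
        intro j hj
        have h2 : (∑ j' ∈ range J, ∑ b ∈ range N, G ((b : ℤ) + j) * G ((b : ℤ) + j')) ≤
            ∑ j' ∈ range J, ((if ∃ i i', d i + 4 * (c : ℤ) * j = d i' + 4 * (c : ℤ) * j'
              then (N : ℝ) else 0) + ε ^ 2 / 4 * N) :=
          sum_le_sum fun j' hj' => hN1 j j' N ((hNNle j hj j' hj').trans hNa)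
        rw [sum_add_distrib, sum_const, card_range, nsmul_eq_mul, ← sum_filter, sum_const,
          nsmul_eq_mul] at h2
        have h3 : (((range J).filter (fun j' : ℕ => ∃ i i', d i + 4 * (c : ℤ) * j =
            d i' + 4 * (c : ℤ) * j')).card : ℝ) ≤ (q0 : ℝ) ^ 2 := by
          exact_mod_cast bad_card q0 c d hc1 J j
        have h4 := mul_le_mul_of_nonneg_right h3 hNpos.le
        linarith
      refine (sum_le_sum h1).trans ?_
      rw [sum_const, card_range, nsmul_eq_mul, mul_add]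
    have hsq : (∑ b ∈ range N, G b) ^ 2 ≤ (ε * N) ^ 2 := by
      refine hV.trans ?_
      have h1 : (N : ℝ) / (J : ℝ) ^ 2 * (∑ j ∈ range J, ∑ j' ∈ range J, ∑ b ∈ range N,
          G ((b : ℤ) + j) * G ((b : ℤ) + j')) ≤
          (N : ℝ) / (J : ℝ) ^ 2 * (J * ((q0 : ℝ) ^ 2 * N) + J * (J * (ε ^ 2 / 4 * N))) :=
        mul_le_mul_of_nonneg_left hsum (by positivity)
      have h2 : (N : ℝ) / (J : ℝ) ^ 2 * (J * ((q0 : ℝ) ^ 2 * N) + J * (J * (ε ^ 2 / 4 * N))) =
          (q0 : ℝ) ^ 2 / J * N ^ 2 + ε ^ 2 / 4 * N ^ 2 := by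
        field_simp
      have h3 : (q0 : ℝ) ^ 2 / J ≤ ε ^ 2 / 4 := by
        rw [div_le_iff₀ hJpos]
        linarith
      have h4 : 2 * (J : ℝ) * N ≤ ε ^ 2 / 2 * N ^ 2 := by
        have h5 : 4 * (J : ℝ) < ε ^ 2 * N := by
          have h6 : 4 * (J : ℝ) / ε ^ 2 < N := hN2.trans_le (by exact_mod_cast hNb)
          rw [div_lt_iff₀ (by positivity)] at h6
          linarith
        nlinarith
      have h5 := mul_le_mul_of_nonneg_right h3 (sq_nonneg (N : ℝ))
      nlinarith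
    exact abs_le_of_sq_le_sq hsq (by positivity)
  rw [Metric.tendsto_atTop]
  intro ε hε
  obtain ⟨N0, hN0⟩ := hgoal (ε / 2) (by positivity)
  refine ⟨max N0 1, fun N hN => ?_⟩
  have hNc : 1 ≤ N := (le_max_right _ _).trans hN
  have hNpos : (0 : ℝ) < N := by exact_mod_cast hNc
  have h1 := hN0 N ((le_max_left _ _).trans hN)
  rw [Real.dist_eq, sub_zero, abs_div, abs_of_pos hNpos, div_lt_iff₀ hNpos]
  have : (0 : ℝ) < ε * N := by positivity
  simp only [hG] at h1
  linarith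

end Pool.Agent.H43.T4
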